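import Mathlib

/-!
# Dismantling solutions in thin cuboids: `C(2,3,9)` and `C(3,3,6)` have solutions

A dismantling deletes cubes that have exactly three neighbours in the current position.  Explicit
dismantlings of `C(2,3,9)`, `C(2,3,12)`, `C(3,3,6)` and `C(3,3,8)` end in positions without
neighbouring cubes, so the statements (b) and (c) of Q1 are both false.
-/

namespace Pool.Agent.Results.MP_93d976_co.ThinCuboids

/-- Unit cubes are given by their coordinate vectors. -/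
abbrev Cube : Type := ℕ × ℕ × ℕ

/-- Two cubes are neighbours: their coordinate vectors differ by `1` in exactly one coordinate. -/
def Nbr (x y : Cube) : Prop :=
  ((x.1 + 1 = y.1 ∨ y.1 + 1 = x.1) ∧ x.2.1 = y.2.1 ∧ x.2.2 = y.2.2) ∨
  (x.1 = y.1 ∧ (x.2.1 + 1 = y.2.1 ∨ y.2.1 + 1 = x.2.1) ∧ x.2.2 = y.2.2) ∨
  (x.1 = y.1 ∧ x.2.1 = y.2.1 ∧ (x.2.2 + 1 = y.2.2 ∨ y.2.2 + 1 = x.2.2))

instance : DecidableRel Nbr := fun x y => by unfold Nbr; infer_instance

/-- The box `C(k,l,m)`. -/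
def box (k l m : ℕ) : Finset Cube := Finset.Icc 1 k ×ˢ Finset.Icc 1 l ×ˢ Finset.Icc 1 m

/-- A move deletes from the position `P` a cube with exactly three neighbours in `P`. -/
def Move (P Q : Finset Cube) : Prop :=
  ∃ v ∈ P, (P.filter (Nbr v)).card = 3 ∧ Q = P.erase v

/-- `S` is a solution in `C(k,l,m)`: no two cubes of `S` are neighbours, and `S` is reached from the
full box by a dismantling, i.e. a finite sequence of moves. -/
def IsSolution (k l m : ℕ) (S : Finset Cube) : Prop :=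
  Relation.ReflTransGen Move (box k l m) S ∧ ∀ x ∈ S, ∀ y ∈ S, ¬ Nbr x y

/-- `C(k,l,m)` has a solution. -/
def HasSolution (k l m : ℕ) : Prop := ∃ S, IsSolution k l m S

/-- Delete the cubes of the list one after the other; `none` if some step is not a move. -/
def run : List Cube → List Cube → Option (List Cube)
  | [], P => some P
  | v :: L, P =>
    if P.contains v && ((P.filter (fun u => decide (Nbr v u))).length == 3) then
      run L (P.erase v) else none

theorem run_sound (L P Q : List Cube) (hP : P.Nodup) (h : run L P = some Q) :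
    Relation.ReflTransGen Move P.toFinset Q.toFinset := by
  induction L generalizing P with
  | nil =>
    simp only [run, Option.some.injEq] at h
    rw [h]
  | cons v L ih =>
    unfold run at h
    split_ifs at h with hc
    simp only [Bool.and_eq_true, List.contains_iff_mem, beq_iff_eq] at hc
    obtain ⟨hv, h3⟩ := hc
    refine Relation.ReflTransGen.head ?_ (ih (P.erase v) (hP.erase v) h)
    refine ⟨v, by simpa using hv, ?_, ?_⟩
    · have e : Finset.filter (Nbr v) P.toFinset =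
          (List.filter (fun u => decide (Nbr v u)) P).toFinset := by
        ext x
        simp
      rw [← h3, e, List.toFinset_card_of_nodup (hP.filter _)]
    · ext x
      simp only [List.mem_toFinset, Finset.mem_erase, hP.mem_erase_iff]

/-- All cubes of the box as a list. -/
def boxList (k l m : ℕ) : List Cube :=
  (List.range' 1 k).flatMap fun i => (List.range' 1 l).flatMap fun j =>
    (List.range' 1 m).map fun h => (i, j, h)

/-- The check of a list of moves. -/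
def check (k l m : ℕ) (L : List Cube) : Bool :=
  decide (boxList k l m).Nodup &&
  match run L (boxList k l m) with
  | some Q => Q.all fun x => Q.all fun y => !decide (Nbr x y)
  | none => false

theorem boxList_toFinset (k l m : ℕ) : (boxList k l m).toFinset = box k l m := by
  ext ⟨a, b, c⟩
  simp only [boxList, box, List.mem_toFinset, List.mem_flatMap, List.mem_map, List.mem_range'_1,
    Finset.mem_product, Finset.mem_Icc, Prod.mk.injEq]
  constructor
  · rintro ⟨i, hi, j, hj, h, hh, rfl, rfl, rfl⟩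
    omega
  · rintro ⟨ha, hb, hc⟩
    exact ⟨a, by omega, b, by omega, c, by omega, rfl, rfl, rfl⟩

theorem hasSolution_of_check (k l m : ℕ) (L : List Cube) (h : check k l m L = true) :
    HasSolution k l m := by
  unfold check at h
  simp only [Bool.and_eq_true, decide_eq_true_eq] at h
  obtain ⟨hnd, h⟩ := h
  split at h
  · rename_i Q hQ
    refine ⟨Q.toFinset, ?_, ?_⟩
    · rw [← boxList_toFinset]
      exact run_sound L _ Q hnd hQ
    · intro x hx y hy
      simp only [List.all_eq_true, Bool.not_eq_true', decide_eq_false_iff_not] at h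
      exact h x (by simpa using hx) y (by simpa using hy)
  · simp at h

/-- The cubes deleted, in this order. -/
def moves239 : List Cube :=
  [(2, 1, 9), (2, 1, 8), (2, 1, 7), (2, 1, 6), (2, 1, 5), (2, 3, 1), (2, 1, 4), (2, 3, 2),
    (2, 1, 3), (2, 3, 3), (2, 2, 3), (2, 2, 4), (2, 3, 9), (2, 2, 5), (2, 2, 6), (2, 2, 7),
    (1, 1, 8), (1, 3, 2), (2, 2, 2), (2, 2, 8), (2, 3, 5), (2, 3, 7), (1, 2, 2), (1, 2, 8),
    (1, 3, 5), (1, 1, 2), (1, 1, 4), (1, 1, 6), (1, 2, 1), (1, 2, 3), (1, 2, 5), (1, 2, 7),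
    (1, 2, 9), (1, 3, 4), (1, 3, 6), (1, 3, 8), (2, 1, 1)]

/-- The cubes deleted, in this order. -/
def moves2312 : List Cube :=
  [(1, 1, 1), (1, 1, 12), (1, 3, 1), (1, 1, 11), (1, 1, 10), (1, 1, 9), (2, 1, 9), (2, 1, 8),
    (1, 3, 2), (2, 3, 2), (1, 3, 3), (2, 1, 7), (1, 1, 7), (1, 3, 4), (1, 1, 6), (2, 3, 4),
    (1, 1, 5), (1, 3, 5), (1, 2, 5), (1, 2, 4), (1, 2, 6), (1, 2, 3), (1, 1, 3), (1, 2, 2),
    (2, 1, 5), (2, 1, 4), (2, 2, 2), (2, 1, 2), (2, 2, 3), (2, 2, 5), (2, 2, 6), (2, 2, 7),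
    (2, 3, 6), (2, 2, 8), (2, 3, 8), (1, 3, 8), (2, 1, 11), (2, 3, 9), (1, 3, 7), (2, 3, 10),
    (1, 3, 10), (2, 2, 1), (2, 3, 11), (2, 2, 11), (2, 2, 10), (1, 2, 8), (1, 2, 9), (1, 2, 11),
    (1, 3, 12), (2, 2, 12)]

/-- The cubes deleted, in this order. -/
def moves336 : List Cube :=
  [(1, 3, 6), (1, 2, 6), (1, 3, 5), (2, 3, 6), (1, 2, 5), (1, 3, 4), (2, 2, 6), (2, 3, 5),
    (1, 2, 4), (1, 3, 1), (1, 3, 3), (2, 2, 5), (2, 3, 4), (1, 2, 1), (2, 2, 4), (2, 3, 3),
    (3, 1, 1), (2, 1, 1), (3, 1, 2), (2, 1, 2), (1, 1, 2), (1, 2, 2), (2, 2, 1), (3, 1, 3),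
    (1, 1, 3), (2, 2, 2), (3, 1, 4), (1, 1, 5), (2, 1, 4), (2, 1, 6), (2, 2, 3), (2, 3, 2),
    (3, 1, 5), (3, 2, 2), (3, 2, 4), (3, 2, 6), (3, 3, 1), (3, 3, 3), (3, 3, 5)]

/-- The cubes deleted, in this order. -/
def moves338 : List Cube :=
  [(3, 3, 1), (1, 3, 8), (2, 3, 1), (3, 2, 1), (3, 3, 2), (1, 2, 8), (2, 3, 8), (3, 2, 2),
    (3, 3, 3), (2, 2, 8), (3, 1, 2), (3, 2, 3), (3, 3, 4), (1, 3, 7), (3, 2, 4), (3, 2, 8),
    (3, 3, 5), (1, 2, 7), (1, 3, 6), (3, 1, 4), (1, 2, 6), (3, 1, 5), (1, 3, 5), (3, 1, 6),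
    (1, 1, 7), (2, 3, 5), (3, 1, 7), (2, 3, 4), (2, 3, 6), (3, 2, 7), (2, 2, 7), (2, 3, 3),
    (3, 2, 6), (3, 3, 7), (1, 3, 3), (1, 3, 2), (2, 2, 1), (1, 2, 1), (1, 2, 2), (1, 1, 2),
    (1, 1, 3), (1, 1, 4), (1, 1, 5), (2, 1, 5), (2, 1, 6), (2, 1, 1), (2, 2, 2), (2, 2, 3),
    (2, 2, 4), (1, 2, 4), (2, 1, 3), (2, 1, 8), (2, 2, 5)]

theorem sol239 : HasSolution 2 3 9 := hasSolution_of_check 2 3 9 moves239 (by decide +kernel)

theorem sol2312 : HasSolution 2 3 12 := hasSolution_of_check 2 3 12 moves2312 (by decide +kernel)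

theorem sol336 : HasSolution 3 3 6 := hasSolution_of_check 3 3 6 moves336 (by decide +kernel)

theorem sol338 : HasSolution 3 3 8 := hasSolution_of_check 3 3 8 moves338 (by decide +kernel)

/-- The boxes `C(2,3,9)`, `C(2,3,12)`, `C(3,3,6)` and `C(3,3,8)` have solutions. Hence statement (b)
of Q1 (`C(2,3,k)` has no solution for `k ≠ 6`) is false, statement (c) (`C(3,3,k)` has a solution
for odd `k` and none for even `k ≠ 4`) is false, and the conjunction of (a), (b), (c) is false. -/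
theorem result :
    (HasSolution 2 3 9 ∧ HasSolution 2 3 12 ∧ HasSolution 3 3 6 ∧ HasSolution 3 3 8) ∧
    ¬ (∀ k : ℕ, 1 ≤ k → k ≠ 6 → ¬ HasSolution 2 3 k) ∧
    ¬ (∀ k : ℕ, 1 ≤ k → (Odd k → HasSolution 3 3 k) ∧ (Even k → k ≠ 4 → ¬ HasSolution 3 3 k)) ∧
    ¬ ((∀ k : ℕ, 3 ≤ k → k ≠ 5 → ¬ HasSolution 2 2 k) ∧
      (∀ k : ℕ, 1 ≤ k → k ≠ 6 → ¬ HasSolution 2 3 k) ∧
      (∀ k : ℕ, 1 ≤ k → (Odd k → HasSolution 3 3 k) ∧ (Even k → k ≠ 4 → ¬ HasSolution 3 3 k))) := by
  refine ⟨⟨sol239, sol2312, sol336, sol338⟩, fun h => h 9 (by norm_num) (by norm_num) sol239,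
    fun h => (h 6 (by norm_num)).2 (by decide) (by norm_num) sol336,
    fun h => h.2.1 9 (by norm_num) (by norm_num) sol239⟩

end Pool.Agent.Results.MP_93d976_co.ThinCuboids
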